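import Mathlib

/-!
# Sparse functions on `ZMod q`

`psi` is an injective additive character of `ZMod q` with values in a field `K`. For
`c : ZMod q → K` we study the function `ft psi c x = ∑ a, c a * psi (a * x)`.
-/

set_option autoImplicit false

namespace Pool.Agent.Helper20_US

open Finset Module

variable {q : ℕ} [Fact q.Prime] {K : Type*} [Field K]

/-- The function with the coefficients `c`. -/
def ft (psi : AddChar (ZMod q) K) (c : ZMod q → K) (x : ZMod q) : K :=
  ∑ a : ZMod q, c a * psi (a * x)

/-- The vector of the values of the characters at `y`. -/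
def uv (psi : AddChar (ZMod q) K) (y : ZMod q) : ZMod q → K := fun a => psi (a * y)

theorem ft_mul_uv (psi : AddChar (ZMod q) K) (c : ZMod q → K) (x y : ZMod q) :
    ft psi (c * uv psi y) x = ft psi c (y + x) := by
  unfold ft uv
  refine Finset.sum_congr rfl fun a _ => ?_
  rw [Pi.mul_apply, mul_add, AddChar.map_add_eq_mul, mul_assoc]

/-- `ft` as a linear map. -/
def ftl (psi : AddChar (ZMod q) K) (x : ZMod q) : (ZMod q → K) →ₗ[K] K where
  toFun c := ft psi c x
  map_add' a b := by
    simp only [ft, Pi.add_apply, add_mul, Finset.sum_add_distrib]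
  map_smul' t a := by
    simp only [ft, Pi.smul_apply, smul_eq_mul, RingHom.id_apply, Finset.mul_sum, mul_assoc]

theorem ftl_apply (psi : AddChar (ZMod q) K) (x : ZMod q) (c : ZMod q → K) :
    ftl psi x c = ft psi c x := rfl

open Classical in
/-- The support of a coefficient vector. -/
noncomputable def sp (c : ZMod q → K) : Finset (ZMod q) := univ.filter fun a => c a ≠ 0

theorem mem_sp {c : ZMod q → K} {a : ZMod q} : a ∈ sp c ↔ c a ≠ 0 := by
  classical
  simp [sp]

open Classical in
/-- The set of the points where the function with the coefficients `c` is not zero. -/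
noncomputable def nz (psi : AddChar (ZMod q) K) (c : ZMod q → K) : Finset (ZMod q) :=
  univ.filter fun x => ft psi c x ≠ 0

theorem mem_nz {psi : AddChar (ZMod q) K} {c : ZMod q → K} {x : ZMod q} :
    x ∈ nz psi c ↔ ft psi c x ≠ 0 := by
  classical
  simp [nz]

open Classical in
/-- The set of all `x` such that `x + y` is in `W` for some `y` in `Y`. -/
noncomputable def df (W Y : Finset (ZMod q)) : Finset (ZMod q) :=
  univ.filter fun x => ∃ y ∈ Y, x + y ∈ W

theorem mem_df {W Y : Finset (ZMod q)} {x : ZMod q} : x ∈ df W Y ↔ ∃ y ∈ Y, x + y ∈ W := by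
  classical
  simp [df]

/-- A vector with a zero set of size `n` and with exponents which are small after a shift. -/
theorem eq_zero_of_small (psi : AddChar (ZMod q) K) (hpsi : Function.Injective psi)
    (B : Finset (ZMod q)) (t : ZMod q) (c : ZMod q → K) (hB : ∀ x ∈ B, ft psi c x = 0)
    (hs : ∀ a : ZMod q, B.card ≤ (a + t).val → c a = 0) : c = 0 := by
  classical
  let P : Polynomial K := ∑ a : ZMod q, Polynomial.monomial ((a + t).val) (c a)
  have hinj : ∀ a b : ZMod q, (a + t).val = (b + t).val → a = b := by
    intro a b h
    exact add_right_cancel (ZMod.val_injective q h)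
  have hcoef : ∀ a : ZMod q, P.coeff ((a + t).val) = c a := by
    intro a
    simp only [P, Polynomial.finsetSum_coeff, Polynomial.coeff_monomial]
    rw [Finset.sum_eq_single a]
    · simp
    · intro b _ hb
      rw [if_neg]
      intro h
      exact hb (hinj _ _ h)
    · intro h
      exact absurd (Finset.mem_univ _) h
  have hdeg : P.degree < (B.image psi).card := by
    rw [Finset.card_image_of_injective _ hpsi, Polynomial.degree_lt_iff_coeff_zero]
    intro m hm
    simp only [P, Polynomial.finsetSum_coeff, Polynomial.coeff_monomial]
    refine Finset.sum_eq_zero fun i _ => ?_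
    split_ifs with h
    · exact hs i (by rw [h]; exact hm)
    · rfl
  have heval : ∀ z ∈ B.image psi, P.eval z = 0 := by
    intro z hz
    obtain ⟨x, hx, rfl⟩ := Finset.mem_image.mp hz
    have h1 : P.eval (psi x) = psi (t * x) * ft psi c x := by
      simp only [P, ft, Polynomial.eval_finsetSum, Polynomial.eval_monomial, Finset.mul_sum]
      refine Finset.sum_congr rfl fun a _ => ?_
      have h2 : psi x ^ (a + t).val = psi (a * x) * psi (t * x) := by
        rw [← AddChar.map_nsmul_eq_pow, nsmul_eq_mul, ZMod.natCast_zmod_val, add_mul,
          AddChar.map_add_eq_mul]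
      rw [h2]
      ring
    rw [h1, hB x hx, mul_zero]
  have hP : P = 0 := Polynomial.eq_zero_of_degree_lt_of_eval_finset_eq_zero _ hdeg heval
  funext a
  rw [← hcoef a, hP]
  simp

/-- One translate. -/
theorem finrank_add_le (psi : AddChar (ZMod q) K) (hpsi : Function.Injective psi)
    (A B : Finset (ZMod q)) (U : Submodule K (ZMod q → K))
    (hA : ∀ w ∈ U, ∀ a, a ∉ A → w a = 0) (hB : ∀ w ∈ U, ∀ x ∈ B, ft psi w x = 0)
    (t : ZMod q) :
    finrank K U + (A.filter fun a => (a + t).val < B.card).card ≤ A.card := by
  classical
  let A' := A.filter fun a => ¬ (a + t).val < B.card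
  let L : U →ₗ[K] (A' → K) :=
    { toFun := fun w a => w.1 a.1
      map_add' := fun _ _ => rfl
      map_smul' := fun _ _ => rfl }
  have hL : Function.Injective L := by
    rw [injective_iff_map_eq_zero]
    intro w h
    have : w.1 = 0 := by
      refine eq_zero_of_small psi hpsi B t w.1 (fun x hx => hB w.1 w.2 x hx) fun a ha => ?_
      by_cases haA : a ∈ A
      · have hm : a ∈ A' := Finset.mem_filter.mpr ⟨haA, not_lt.mpr ha⟩
        exact congrFun h ⟨a, hm⟩
      · exact hA w.1 w.2 a haA
    exact Subtype.ext this
  have h1 := LinearMap.finrank_le_finrank_of_injective hL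
  rw [finrank_fintype_fun_eq_card, Fintype.card_coe] at h1
  have h2 := Finset.card_filter_add_card_filter_not (s := A) (fun a => (a + t).val < B.card)
  change finrank K U ≤ (A.filter fun a => ¬ (a + t).val < B.card).card at h1
  omega

theorem card_val_lt (m : ℕ) (hm : m ≤ q) (a : ZMod q) :
    ((univ : Finset (ZMod q)).filter fun t => (a + t).val < m).card = m := by
  classical
  have h1 : ((univ : Finset (ZMod q)).filter fun t => (a + t).val < m) =
      ((univ : Finset (ZMod q)).filter fun s => s.val < m).image fun s => s - a := by
    ext t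
    simp only [Finset.mem_filter, Finset.mem_univ, true_and, Finset.mem_image]
    constructor
    · intro h
      exact ⟨a + t, h, by ring⟩
    · rintro ⟨s, hs, rfl⟩
      have : a + (s - a) = s := by ring
      rw [this]
      exact hs
  rw [h1, Finset.card_image_of_injective _ (fun x y h => by
    have h' : x - a = y - a := h
    exact sub_left_injective h')]
  have h2 : ((univ : Finset (ZMod q)).filter fun s => s.val < m).image ZMod.val = range m := by
    ext x
    simp only [Finset.mem_image, Finset.mem_filter, Finset.mem_univ, true_and, Finset.mem_range]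
    constructor
    · rintro ⟨s, hs, rfl⟩
      exact hs
    · intro hx
      refine ⟨(x : ZMod q), ?_, ?_⟩
      · rw [ZMod.val_cast_of_lt (by omega)]
        exact hx
      · exact ZMod.val_cast_of_lt (by omega)
  have h3 := Finset.card_image_of_injective ((univ : Finset (ZMod q)).filter fun s => s.val < m)
    (ZMod.val_injective q)
  rw [← h3, h2, Finset.card_range]

/-- The dimension bound: a space of coefficient vectors supported on `A`, all vanishing on `B`. -/
theorem finrank_le (psi : AddChar (ZMod q) K) (hpsi : Function.Injective psi)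
    (A B : Finset (ZMod q)) (U : Submodule K (ZMod q → K))
    (hA : ∀ w ∈ U, ∀ a, a ∉ A → w a = 0) (hB : ∀ w ∈ U, ∀ x ∈ B, ft psi w x = 0) :
    q * finrank K U + B.card * A.card ≤ q * A.card := by
  classical
  have hBq : B.card ≤ q := by
    have := Finset.card_le_univ B
    rwa [ZMod.card] at this
  have h1 : ∑ t : ZMod q, (finrank K U + (A.filter fun a => (a + t).val < B.card).card) ≤
      ∑ _t : ZMod q, A.card :=
    Finset.sum_le_sum fun t _ => finrank_add_le psi hpsi A B U hA hB t
  have h2 : ∑ t : ZMod q, (A.filter fun a => (a + t).val < B.card).card =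
      B.card * A.card := by
    simp only [Finset.card_filter]
    rw [Finset.sum_comm]
    simp only [← Finset.card_filter]
    rw [Finset.sum_congr rfl fun i _ => card_val_lt B.card hBq i]
    rw [Finset.sum_const, smul_eq_mul, mul_comm]
  rw [Finset.sum_add_distrib, h2] at h1
  simpa only [Finset.sum_const, Finset.card_univ, ZMod.card, smul_eq_mul] using h1

end Pool.Agent.Helper20_US
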