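import Mathlib

/-!
# The product of the factors
-/

set_option autoImplicit false

namespace Pool.Agent.Helper20_US

open Finset

open Classical in
/-- The factor at rank `s`. -/
noncomputable def fb (b : ℝ) (s : ℕ) : ℝ :=
  if (s : ℝ) ≤ 2 * b then 8 * b / (s - 1) else s / (s - b)

theorem fb_ge_one {b : ℝ} (hb : 0 < b) {s : ℕ} (hs : 2 ≤ s) : 1 ≤ fb b s := by
  have hs' : (2 : ℝ) ≤ s := by exact_mod_cast hs
  unfold fb
  split_ifs with h
  · rw [le_div_iff₀ (by linarith)]
    linarith
  · push Not at h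
    rw [le_div_iff₀ (by linarith)]
    linarith

theorem prod_mono {b : ℝ} (hb : 0 < b) {m n : ℕ} (h : m ≤ n) :
    ∏ s ∈ Icc 2 m, fb b s ≤ ∏ s ∈ Icc 2 n, fb b s := by
  induction n, h using Nat.le_induction with
  | base => exact le_rfl
  | succ n hmn ih =>
    refine ih.trans ?_
    by_cases h2 : 2 ≤ n + 1
    · rw [Finset.prod_Icc_succ_top h2]
      have h0 : 0 ≤ ∏ s ∈ Icc 2 n, fb b s := Finset.prod_nonneg fun s hs =>
        le_trans zero_le_one (fb_ge_one hb (Finset.mem_Icc.mp hs).1)
      exact le_mul_of_one_le_right h0 (fb_ge_one hb h2)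
    · have e1 : Icc 2 n = ∅ := Finset.Icc_eq_empty (by omega)
      have e2 : Icc 2 (n + 1) = ∅ := Finset.Icc_eq_empty (by omega)
      rw [e1, e2]

theorem one_le_prod {b : ℝ} (hb : 0 < b) (n : ℕ) : 1 ≤ ∏ s ∈ Icc 2 n, fb b s := by
  have h := prod_mono hb (Nat.zero_le n)
  simpa using h

/-- The first phase. -/
theorem prod_first (b : ℝ) (n : ℕ) (h : ((n + 1 : ℕ) : ℝ) ≤ 2 * b) :
    ∏ s ∈ Icc 2 (n + 1), fb b s = (8 * b) ^ n / n.factorial := by
  induction n with
  | zero => simp
  | succ n ih =>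
    have h1 : ((n + 1 : ℕ) : ℝ) ≤ 2 * b := by
      push_cast at h ⊢
      linarith
    rw [Finset.prod_Icc_succ_top (by omega), ih h1]
    have h2 : fb b (n + 1 + 1) = 8 * b / (n + 1) := by
      unfold fb
      rw [if_pos h]
      push_cast
      ring
    rw [h2, Nat.factorial_succ, pow_succ]
    push_cast
    field_simp

theorem prod_first_le (b : ℝ) (hb : 0 ≤ b) (n : ℕ) (h : ((n + 1 : ℕ) : ℝ) ≤ 2 * b) :
    ∏ s ∈ Icc 2 (n + 1), fb b s ≤ Real.exp (b * (2 + 2 * Real.log 4)) := by
  rw [prod_first b n h]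
  have h1 : (8 * b) ^ n / (n.factorial : ℝ) = 4 ^ n * ((2 * b) ^ n / n.factorial) := by
    rw [show 8 * b = 4 * (2 * b) by ring, mul_pow, mul_div_assoc]
  rw [h1]
  have h2 : (2 * b) ^ n / (n.factorial : ℝ) ≤ Real.exp (2 * b) :=
    Real.pow_div_factorial_le_exp (2 * b) (by linarith) n
  have h3 : (4 : ℝ) ^ n ≤ Real.exp (2 * b * Real.log 4) := by
    have h4 : (4 : ℝ) ^ n = Real.exp (n * Real.log 4) := by
      rw [mul_comm, Real.exp_mul, Real.exp_log (by norm_num), Real.rpow_natCast]
    rw [h4]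
    refine Real.exp_le_exp.mpr (mul_le_mul_of_nonneg_right ?_ (Real.log_nonneg (by norm_num)))
    push_cast at h
    linarith
  calc (4 : ℝ) ^ n * ((2 * b) ^ n / n.factorial)
      ≤ Real.exp (2 * b * Real.log 4) * Real.exp (2 * b) :=
        mul_le_mul h3 h2 (by positivity) (Real.exp_pos _).le
    _ = Real.exp (b * (2 + 2 * Real.log 4)) := by
        rw [← Real.exp_add]
        congr 1
        ring

/-- The second phase. -/
theorem prod_second (b : ℝ) (hb : 0 < b) (m : ℕ) (hm : b < m) (hm1 : 1 ≤ m)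
    (hm2 : 2 * b < (m : ℝ) + 1) (n : ℕ) (hn : m ≤ n) :
    ∏ s ∈ Icc 2 n, fb b s ≤ (∏ s ∈ Icc 2 m, fb b s) *
      Real.exp (b * (Real.log (n - b) - Real.log (m - b))) := by
  induction n, hn using Nat.le_induction with
  | base => simp
  | succ n hmn ih =>
    have hmn' : (m : ℝ) ≤ n := by exact_mod_cast hmn
    rw [Finset.prod_Icc_succ_top (by omega)]
    have hu : 0 < (n : ℝ) - b := by linarith
    have h1 : fb b (n + 1) ≤
        Real.exp (b * (Real.log (((n + 1 : ℕ) : ℝ) - b) - Real.log (n - b))) := by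
      unfold fb
      rw [if_neg (by push_cast; linarith)]
      have e1 : ((n + 1 : ℕ) : ℝ) / (((n + 1 : ℕ) : ℝ) - b) = b / ((n : ℝ) - b + 1) + 1 := by
        push_cast
        have : (n : ℝ) + 1 - b ≠ 0 := by linarith
        have : (n : ℝ) - b + 1 ≠ 0 := by linarith
        field_simp
        ring
      rw [e1]
      refine (Real.add_one_le_exp _).trans (Real.exp_le_exp.mpr ?_)
      rw [div_eq_mul_one_div]
      refine mul_le_mul_of_nonneg_left ?_ hb.le
      have e2 : Real.log (((n + 1 : ℕ) : ℝ) - b) - Real.log (n - b) =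
          Real.log (((n : ℝ) - b + 1) / (n - b)) := by
        rw [Real.log_div (by linarith) (by linarith)]
        push_cast
        congr 2
        ring
      rw [e2]
      have e3 := Real.one_sub_inv_le_log_of_pos (x := ((n : ℝ) - b + 1) / (n - b))
        (by positivity)
      refine le_trans (le_of_eq ?_) e3
      rw [inv_div]
      field_simp
      ring
    calc (∏ s ∈ Icc 2 n, fb b s) * fb b (n + 1)
        ≤ ((∏ s ∈ Icc 2 m, fb b s) * Real.exp (b * (Real.log (n - b) - Real.log (m - b)))) *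
          Real.exp (b * (Real.log (((n + 1 : ℕ) : ℝ) - b) - Real.log (n - b))) := by
          refine mul_le_mul ih h1 (le_trans zero_le_one (fb_ge_one hb (by omega))) ?_
          exact mul_nonneg (le_trans zero_le_one (one_le_prod hb m)) (Real.exp_pos _).le
      _ = (∏ s ∈ Icc 2 m, fb b s) *
          Real.exp (b * (Real.log (((n + 1 : ℕ) : ℝ) - b) - Real.log (m - b))) := by
          rw [mul_assoc, ← Real.exp_add]
          congr 2
          ring

theorem log_const : 2 + 2 * Real.log 4 + Real.log 3 ≤ 6 := by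
  have h1 : 2 * Real.log 4 + Real.log 3 = Real.log 48 := by
    rw [two_mul, ← Real.log_mul (by norm_num) (by norm_num),
      ← Real.log_mul (by norm_num) (by norm_num)]
    norm_num
  have h2 : Real.log 48 ≤ 4 := by
    rw [Real.log_le_iff_le_exp (by norm_num)]
    have h3 : Real.exp 4 = Real.exp 1 ^ 4 := by
      rw [← Real.exp_nat_mul]
      norm_num
    rw [h3]
    have h4 : (2.7 : ℝ) < Real.exp 1 := by
      have := Real.exp_one_gt_d9
      linarith
    calc (48 : ℝ) ≤ 2.7 ^ 4 := by norm_num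
      _ ≤ Real.exp 1 ^ 4 := pow_le_pow_left₀ (by norm_num) h4.le 4
  linarith

/-- The bound of the whole product. -/
theorem prod_le (b : ℝ) (hb : 1 ≤ b) (k : ℕ) (hk : 2 * b ≤ k) :
    ∏ s ∈ Icc 2 k, fb b s ≤ Real.exp (b * (6 + Real.log (k / b))) := by
  have hb0 : 0 < b := by linarith
  set m := ⌊2 * b⌋₊ with hm
  have hm2 : 2 * b < (m : ℝ) + 1 := Nat.lt_floor_add_one _
  have hm3 : (m : ℝ) ≤ 2 * b := Nat.floor_le (by linarith)
  have hm4 : 2 ≤ m := by
    rw [hm]
    exact Nat.le_floor (by push_cast; linarith)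
  have hm4' : (2 : ℝ) ≤ m := by exact_mod_cast hm4
  have hmb : b / 3 ≤ (m : ℝ) - b := by
    by_cases h : b ≤ 3 / 2
    · linarith
    · push Not at h
      linarith
  have hmk : m ≤ k := by
    have : (m : ℝ) ≤ k := by linarith
    exact_mod_cast this
  have h1 := prod_second b hb0 m (by linarith) (by omega) hm2 k hmk
  obtain ⟨n, hn⟩ : ∃ n, m = n + 1 := ⟨m - 1, by omega⟩
  have h2 : ∏ s ∈ Icc 2 m, fb b s ≤ Real.exp (b * (2 + 2 * Real.log 4)) := by
    rw [hn]
    exact prod_first_le b hb0.le n (by rw [← hn]; exact hm3)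
  have hkb : 0 < (k : ℝ) - b := by linarith
  have h3 : Real.log (k - b) ≤ Real.log k :=
    Real.log_le_log hkb (by linarith)
  have h4 : Real.log b - Real.log 3 ≤ Real.log (m - b) := by
    rw [← Real.log_div hb0.ne' (by norm_num)]
    exact Real.log_le_log (by positivity) hmb
  refine h1.trans ?_
  calc (∏ s ∈ Icc 2 m, fb b s) * Real.exp (b * (Real.log (k - b) - Real.log (m - b)))
      ≤ Real.exp (b * (2 + 2 * Real.log 4)) *
        Real.exp (b * (Real.log k - (Real.log b - Real.log 3))) := by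
        refine mul_le_mul h2 (Real.exp_le_exp.mpr ?_) (Real.exp_pos _).le (Real.exp_pos _).le
        exact mul_le_mul_of_nonneg_left (by linarith) hb0.le
    _ = Real.exp (b * (2 + 2 * Real.log 4 + Real.log 3 + Real.log (k / b))) := by
        rw [← Real.exp_add, Real.log_div (by linarith) hb0.ne']
        congr 1
        ring
    _ ≤ Real.exp (b * (6 + Real.log (k / b))) := by
        refine Real.exp_le_exp.mpr (mul_le_mul_of_nonneg_left ?_ hb0.le)
        have := log_const
        linarith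

end Pool.Agent.Helper20_US
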