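import Pool.Agent.Helper20_US.Step
import Pool.Agent.Helper20_US.Prod

/-!
# Counting
-/

set_option autoImplicit false

namespace Pool.Agent.Helper20_US

open Finset Module
open scoped Pointwise

variable {q : ℕ} [Fact q.Prime] {K : Type*} [Field K]

theorem psi_ne_zero (psi : AddChar (ZMod q) K) (x : ZMod q) : psi x ≠ 0 := by
  intro h3
  have h4 : psi x * psi (-x) = 1 := by
    rw [← AddChar.map_add_eq_mul, add_neg_cancel, AddChar.map_zero_eq_one]
  rw [h3, zero_mul] at h4
  exact zero_ne_one h4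

/-- Translations do not increase the rank. -/
theorem rk_shift (psi : AddChar (ZMod q) K) (c : ZMod q → K) (Y : Finset (ZMod q))
    (t : ZMod q) :
    (open Classical in rk psi c (Y.image fun y => y + t)) ≤ rk psi c Y := by
  classical
  have h1 : ys psi c (Y.image fun y => y + t) ≤
      (ys psi c Y).map (LinearMap.mulLeft K (uv psi t)) := by
    unfold ys bs
    rw [Submodule.map_le_iff_le_comap, Submodule.span_le]
    rintro _ ⟨y', hy', rfl⟩
    obtain ⟨y, hy, rfl⟩ := Finset.mem_image.mp (Finset.mem_coe.mp hy')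
    refine Submodule.mem_map.mpr ⟨c * uv psi y, Submodule.mem_map.mpr
      ⟨uv psi y, Submodule.subset_span ⟨y, Finset.mem_coe.mpr hy, rfl⟩, rfl⟩, ?_⟩
    rw [LinearMap.mulLeft_apply, LinearMap.mulLeft_apply, uv_add]
    ring
  exact (Submodule.finrank_mono h1).trans (Submodule.finrank_map_le _ _)

/-- Two translations have rank at least two. -/
theorem rk_two (psi : AddChar (ZMod q) K) (hpsi : Function.Injective psi) (c : ZMod q → K)
    (hc : 2 ≤ (sp c).card) (Y : Finset (ZMod q)) (hY : 2 ≤ Y.card) : 2 ≤ rk psi c Y := by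
  classical
  by_contra hcon
  obtain ⟨T, hT, hT2⟩ := info_set (rk psi c Y) (ys psi c Y) rfl
  obtain ⟨y, hy, y', hy', hne⟩ := Finset.one_lt_card.mp hY
  obtain ⟨a, ha, a', ha', hne'⟩ := Finset.one_lt_card.mp hc
  have hT1 : T.card ≤ 1 := by omega
  obtain ⟨t, ht⟩ : ∃ t, T ⊆ {t} := Finset.card_le_one_iff_subset_singleton.mp hT1
  have hw : uv psi y' t • (c * uv psi y) - uv psi y t • (c * uv psi y') ∈ ys psi c Y :=
    Submodule.sub_mem _ (Submodule.smul_mem _ _ (mem_ys.mpr ⟨_, uv_mem hy, rfl⟩))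
      (Submodule.smul_mem _ _ (mem_ys.mpr ⟨_, uv_mem hy', rfl⟩))
  have hz := hT2 _ hw (by
    intro s hs
    have : s = t := Finset.mem_singleton.mp (ht hs)
    subst this
    simp only [Pi.sub_apply, Pi.smul_apply, Pi.mul_apply, smul_eq_mul]
    ring)
  have key : ∀ d ∈ sp c, d = t := by
    intro d hd
    have h1 := congrFun hz d
    simp only [Pi.sub_apply, Pi.smul_apply, Pi.mul_apply, smul_eq_mul, Pi.zero_apply] at h1
    have h2 : c d * (uv psi y' t * uv psi y d - uv psi y t * uv psi y' d) = 0 := by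
      rw [← h1]
      ring
    have h3 := (mul_eq_zero.mp h2).resolve_left (mem_sp.mp hd)
    have h4 : uv psi y' t * uv psi y d = uv psi y t * uv psi y' d := sub_eq_zero.mp h3
    unfold uv at h4
    rw [← AddChar.map_add_eq_mul, ← AddChar.map_add_eq_mul] at h4
    have h5 := hpsi h4
    have h6 : (d - t) * (y - y') = 0 := by
      linear_combination h5
    rcases mul_eq_zero.mp h6 with h | h
    · exact sub_eq_zero.mp h
    · exact absurd (sub_eq_zero.mp h) hne
  exact hne' ((key a ha).trans (key a' ha').symm)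

/-- The step in one form. -/
theorem step (psi : AddChar (ZMod q) K) (hpsi : Function.Injective psi) (c : ZMod q → K)
    (hc : c ≠ 0) (hH : Hal psi c) (b : ℝ) (hb0 : 0 < b)
    (hb : ((sp c).card : ℝ) * (nz psi c).card ≤ b * q)
    (Y : Finset (ZMod q)) (h0 : (0 : ZMod q) ∈ Y) (hr2 : 2 ≤ rk psi c Y) :
    ∃ Y1 ⊆ Y, rk psi c Y1 < rk psi c Y ∧ (Y.card : ℝ) ≤ fb b (rk psi c Y) * Y1.card := by
  have hr : (2 : ℝ) ≤ rk psi c Y := by exact_mod_cast hr2
  by_cases h : (rk psi c Y : ℝ) ≤ 2 * b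
  · obtain ⟨Y1, h1, h2, h3⟩ := step_small psi hpsi c hc hH b hb Y h0 hr2 h
    refine ⟨Y1, h1, h2, ?_⟩
    unfold fb
    rw [if_pos h, div_mul_eq_mul_div, le_div_iff₀ (by linarith)]
    linarith
  · obtain ⟨Y1, h1, h2, h3⟩ := step_large psi hpsi c hc b hb Y ⟨0, h0⟩
    refine ⟨Y1, h1, h2, ?_⟩
    unfold fb
    push Not at h
    rw [if_neg (not_le.mpr h), div_mul_eq_mul_div, le_div_iff₀ (by linarith)]
    linarith

/-- The size of a set of given rank. -/
theorem count (psi : AddChar (ZMod q) K) (hpsi : Function.Injective psi) (c : ZMod q → K)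
    (hc2 : 2 ≤ (sp c).card) (hH : Hal psi c) (b : ℝ) (hb0 : 0 < b)
    (hb : ((sp c).card : ℝ) * (nz psi c).card ≤ b * q) (n : ℕ) :
    ∀ Y : Finset (ZMod q), rk psi c Y ≤ n → (Y.card : ℝ) ≤ ∏ s ∈ Icc 2 n, fb b s := by
  classical
  have hc : c ≠ 0 := by
    intro h
    have : sp c = ∅ := by
      rw [Finset.eq_empty_iff_forall_notMem]
      intro a ha
      exact mem_sp.mp ha (by rw [h]; rfl)
    rw [this] at hc2
    simp at hc2
  induction n with
  | zero =>
    intro Y hY
    have h1 : Y.card ≤ 1 := by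
      by_contra h
      have := rk_two psi hpsi c hc2 Y (by omega)
      omega
    have h2 : (Y.card : ℝ) ≤ 1 := by exact_mod_cast h1
    exact h2.trans (one_le_prod hb0 0)
  | succ n ih =>
    intro Y hY
    by_cases hY1 : Y.card ≤ 1
    · have h2 : (Y.card : ℝ) ≤ 1 := by exact_mod_cast hY1
      exact h2.trans (one_le_prod hb0 _)
    push Not at hY1
    obtain ⟨y0, hy0⟩ : Y.Nonempty := Finset.card_pos.mp (by omega)
    have hcard : (Y.image fun y => y + -y0).card = Y.card :=
      Finset.card_image_of_injective _ (add_left_injective (-y0))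
    have hrk := rk_shift psi c Y (-y0)
    have h0 : (0 : ZMod q) ∈ Y.image fun y => y + -y0 :=
      Finset.mem_image.mpr ⟨y0, hy0, by ring⟩
    set Y' := Y.image fun y => y + -y0 with hY'
    have hr2 : 2 ≤ rk psi c Y' := rk_two psi hpsi c hc2 Y' (by omega)
    rw [← hcard]
    by_cases hlt : rk psi c Y' ≤ n
    · exact (ih Y' hlt).trans (prod_mono hb0 (Nat.le_succ n))
    have heq : rk psi c Y' = n + 1 := by omega
    obtain ⟨Y1, _, h2, h3⟩ := step psi hpsi c hc hH b hb0 hb Y' h0 hr2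
    have h4 := ih Y1 (by omega)
    rw [Finset.prod_Icc_succ_top (by omega)]
    rw [heq] at h3
    calc (Y'.card : ℝ) ≤ fb b (n + 1) * Y1.card := h3
      _ ≤ fb b (n + 1) * ∏ s ∈ Icc 2 n, fb b s :=
          mul_le_mul_of_nonneg_left h4 (le_trans zero_le_one (fb_ge_one hb0 (by omega)))
      _ = (∏ s ∈ Icc 2 n, fb b s) * fb b (n + 1) := mul_comm _ _

/-- The bound under the halving property. -/
theorem main_hal (psi : AddChar (ZMod q) K) (hpsi : Function.Injective psi) (c : ZMod q → K)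
    (hc2 : 2 ≤ (sp c).card) (hH : Hal psi c) (b : ℝ) (hb1 : 1 ≤ b)
    (hb : ((sp c).card : ℝ) * (nz psi c).card ≤ b * q) (hk : 2 * b ≤ (sp c).card) :
    Real.log q ≤ b * (6 + Real.log ((sp c).card / b)) := by
  have hq : 0 < (q : ℝ) := by exact_mod_cast (Fact.out : q.Prime).pos
  have h1 := count psi hpsi c hc2 hH b (by linarith) hb (sp c).card univ
    (rk_le_card psi hpsi c univ)
  rw [Finset.card_univ, ZMod.card] at h1
  have h2 := h1.trans (prod_le b hb1 (sp c).card hk)
  rw [Real.log_le_iff_le_exp hq]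
  exact h2

end Pool.Agent.Helper20_US
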