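import Pool.Agent.Helper20_US.Rank
import Pool.Agent.Helper24_Sparse.Small

/-!
# The base case
-/

set_option autoImplicit false

namespace Pool.Agent.Helper20_US

open Finset Module

variable {q : ℕ} [Fact q.Prime] {K : Type*} [Field K]

/-- Few terms: at least a third of the points are nonzero points. -/
theorem base (psi : AddChar (ZMod q) K) (hpsi : Function.Injective psi) (c : ZMod q → K)
    (hc : c ≠ 0) (h3 : 3 ^ ((sp c).card - 1) < q) : q ≤ 3 * (nz psi c).card := by
  classical
  obtain ⟨a0, ha0⟩ := Function.ne_iff.mp hc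
  have ha0' : a0 ∈ sp c := mem_sp.mpr ha0
  have hcard : ((sp c).erase a0).card = (sp c).card - 1 := Finset.card_erase_of_mem ha0'
  let e := ((sp c).erase a0).equivFin
  obtain ⟨l, hl, m, hm1, hm2⟩ := Helper24_Sparse.dirichlet (p := q) ((sp c).erase a0).card 3
    (by norm_num) (by rw [hcard]; exact h3) (fun j => ((e.symm j : ZMod q)) - a0)
  -- the integers
  have hint : ∀ a ∈ sp c, ∃ n : ℕ, n ≤ 2 * (q / 3) ∧
      ((n : ℕ) : ZMod q) = l * (a - a0) + ((q / 3 : ℕ) : ZMod q) := by
    intro a ha
    by_cases h : a = a0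
    · refine ⟨q / 3, by omega, ?_⟩
      rw [h, sub_self, mul_zero, zero_add]
    · have hmem : a ∈ (sp c).erase a0 := Finset.mem_erase.mpr ⟨h, ha⟩
      have h1 := hm1 (e ⟨a, hmem⟩)
      have h2 := hm2 (e ⟨a, hmem⟩)
      rw [Equiv.symm_apply_apply] at h2
      set z := m (e ⟨a, hmem⟩) with hz
      have h4 : |z| * 3 ≤ (q : ℤ) := by
        have : ((|z| * 3 : ℤ) : ℝ) ≤ ((q : ℤ) : ℝ) := by
          push_cast
          exact h1
        exact_mod_cast this
      have h5 : |z| ≤ ((q / 3 : ℕ) : ℤ) := by
        omega
      obtain ⟨h6, h7⟩ := abs_le.mp h5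
      refine ⟨(z + (q / 3 : ℕ)).toNat, ?_, ?_⟩
      · have : ((z + (q / 3 : ℕ)).toNat : ℤ) ≤ ((2 * (q / 3) : ℕ) : ℤ) := by
          rw [Int.toNat_of_nonneg (by linarith)]
          push_cast at *
          linarith
        exact_mod_cast this
      · have h8 : (((z + (q / 3 : ℕ)).toNat : ℤ) : ZMod q) = ((z + (q / 3 : ℕ) : ℤ) : ZMod q) := by
          rw [Int.toNat_of_nonneg (by linarith)]
        rw [Int.cast_natCast] at h8
        rw [h8, Int.cast_add, h2, Int.cast_natCast]
  choose! N hN1 hN2 using hint
  let P : Polynomial K := ∑ a ∈ sp c, Polynomial.monomial (N a) (c a)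
  have hinj : ∀ a ∈ sp c, ∀ b ∈ sp c, N a = N b → a = b := by
    intro a ha b hb h
    have h1 := hN2 a ha
    have h2 := hN2 b hb
    rw [h] at h1
    rw [h1] at h2
    have h4 : l * (a - b) = 0 := by linear_combination h2
    exact sub_eq_zero.mp ((mul_eq_zero.mp h4).resolve_left hl)
  have hcoef : P.coeff (N a0) = c a0 := by
    simp only [P, Polynomial.finsetSum_coeff, Polynomial.coeff_monomial]
    rw [Finset.sum_eq_single a0]
    · simp
    · intro b hb hne
      rw [if_neg]
      intro h
      exact hne (hinj b hb a0 ha0' h)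
    · intro h
      exact absurd ha0' h
  have hP : P ≠ 0 := by
    intro h
    rw [h] at hcoef
    exact ha0 hcoef.symm
  have hdeg : P.natDegree ≤ 2 * (q / 3) := by
    refine Polynomial.natDegree_sum_le_of_forall_le _ _ fun a ha => ?_
    exact (Polynomial.natDegree_monomial_le _).trans (hN1 a ha)
  have heval : ∀ x : ZMod q, ft psi c (l * x) = 0 → P.eval (psi x) = 0 := by
    intro x hx
    have h1 : P.eval (psi x) = psi ((((q / 3 : ℕ) : ZMod q) - l * a0) * x) *
        ft psi c (l * x) := by
      simp only [P, ft, Polynomial.eval_finsetSum, Polynomial.eval_monomial, Finset.mul_sum]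
      have h2 : ∑ a : ZMod q, psi ((((q / 3 : ℕ) : ZMod q) - l * a0) * x) *
          (c a * psi (a * (l * x))) =
          ∑ a ∈ sp c, psi ((((q / 3 : ℕ) : ZMod q) - l * a0) * x) *
          (c a * psi (a * (l * x))) := by
        symm
        refine Finset.sum_subset (Finset.subset_univ _) fun a _ ha => ?_
        have : c a = 0 := by
          by_contra h
          exact ha (mem_sp.mpr h)
        rw [this, zero_mul, mul_zero]
      rw [h2]
      refine Finset.sum_congr rfl fun a ha => ?_
      have h5 : psi x ^ N a = psi ((((q / 3 : ℕ) : ZMod q) - l * a0) * x) *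
          psi (a * (l * x)) := by
        rw [← AddChar.map_nsmul_eq_pow, nsmul_eq_mul, hN2 a ha, ← AddChar.map_add_eq_mul]
        congr 1
        ring
      rw [h5]
      ring
    rw [h1, hx, mul_zero]
  -- the number of the zeros
  let Z := univ.filter fun x : ZMod q => ft psi c (l * x) = 0
  have hZ : Z.card ≤ 2 * (q / 3) := by
    have h1 : Z.image psi ⊆ P.roots.toFinset := by
      intro z hz
      obtain ⟨x, hx, rfl⟩ := Finset.mem_image.mp hz
      rw [Multiset.mem_toFinset, Polynomial.mem_roots hP]
      exact heval x (Finset.mem_filter.mp hx).2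
    calc Z.card = (Z.image psi).card := (Finset.card_image_of_injective _ hpsi).symm
      _ ≤ P.roots.toFinset.card := Finset.card_le_card h1
      _ ≤ P.roots.card := Multiset.toFinset_card_le _
      _ ≤ P.natDegree := Polynomial.card_roots' P
      _ ≤ 2 * (q / 3) := hdeg
  have hnz : (nz psi c).card = (univ.filter fun x : ZMod q => ¬ ft psi c (l * x) = 0).card := by
    symm
    have h1 : (univ.filter fun x : ZMod q => ¬ ft psi c (l * x) = 0).image (fun x => l * x) =
        nz psi c := by
      ext y
      rw [Finset.mem_image, mem_nz]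
      constructor
      · rintro ⟨x, hx, rfl⟩
        exact (Finset.mem_filter.mp hx).2
      · intro hy
        refine ⟨l⁻¹ * y, Finset.mem_filter.mpr ⟨Finset.mem_univ _, ?_⟩, ?_⟩
        · rw [mul_inv_cancel_left₀ hl]
          exact hy
        · exact mul_inv_cancel_left₀ hl y
    rw [← h1, Finset.card_image_of_injective _ (mul_right_injective₀ hl)]
  have htot := Finset.card_filter_add_card_filter_not (s := (univ : Finset (ZMod q)))
    (fun x => ft psi c (l * x) = 0)
  rw [Finset.card_univ, ZMod.card] at htot
  change Z.card + _ = q at htot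
  rw [hnz]
  omega

end Pool.Agent.Helper20_US
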