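import Pool.Agent.Helper20_US.Main

/-!
# The universal bound for sparse polynomials on the subgroup of order `q` of `ZMod p`
-/

set_option autoImplicit false

namespace Pool.Agent.Helper20_US

open Finset Module

/-- There is an element of order `q`. -/
theorem exists_primitive {p q : ℕ} [Fact p.Prime] (hqp : q ∣ p - 1) :
    ∃ g : ZMod p, IsPrimitiveRoot g q := by
  have hp : p.Prime := Fact.out
  obtain ⟨u, hu⟩ := IsCyclic.exists_generator (α := (ZMod p)ˣ)
  have h1 : orderOf u = p - 1 := by
    rw [orderOf_eq_card_of_forall_mem_zpowers hu, Nat.card_eq_fintype_card, ZMod.card_units]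
  have hp1 : 0 < p - 1 := by
    have := hp.two_le
    omega
  obtain ⟨m, hm⟩ := hqp
  have h2 : IsPrimitiveRoot (u : ZMod p) (p - 1) := by
    rw [← h1]
    exact (IsPrimitiveRoot.orderOf u).map_of_injective Units.coeHom_injective
  refine ⟨(u : ZMod p) ^ m, ?_⟩
  exact h2.pow hp1 (by rw [hm]; ring)

/-- The number of the nonroots in terms of `nz`. -/
theorem card_roots {p q : ℕ} [Fact p.Prime] [Fact q.Prime] (g : ZMod p)
    (hg : IsPrimitiveRoot g q) (A : Finset ℕ) (hA : A ⊆ range q) (b : ℕ → ZMod p)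
    (hb : ∀ i ∈ A, b i ≠ 0) :
    ∃ (psi : AddChar (ZMod q) (ZMod p)) (c : ZMod q → ZMod p),
      Function.Injective psi ∧ (sp c).card = A.card ∧
      {z : ZMod p | z ^ q = 1 ∧ ∑ i ∈ A, b i * z ^ i = 0}.ncard + (nz psi c).card = q := by
  classical
  have hq : q.Prime := Fact.out
  have hinj : Function.Injective (AddChar.zmodChar q hg.pow_eq_one) := by
    intro x y h
    rw [AddChar.zmodChar_apply, AddChar.zmodChar_apply] at h
    exact ZMod.val_injective q (hg.pow_inj (ZMod.val_lt x) (ZMod.val_lt y) h)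
  set psi := AddChar.zmodChar q hg.pow_eq_one with hpsi
  let c : ZMod q → ZMod p := fun a => if a.val ∈ A then b a.val else 0
  have hsp : sp c = A.image fun i : ℕ => (i : ZMod q) := by
    ext a
    rw [mem_sp, Finset.mem_image]
    constructor
    · intro h
      have h1 : a.val ∈ A := by
        by_contra hcon
        exact h (if_neg hcon)
      exact ⟨a.val, h1, ZMod.natCast_zmod_val a⟩
    · rintro ⟨i, hi, rfl⟩
      have h1 : ((i : ZMod q)).val = i := ZMod.val_cast_of_lt (Finset.mem_range.mp (hA hi))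
      change (if ((i : ZMod q)).val ∈ A then b ((i : ZMod q)).val else 0) ≠ 0
      rw [h1, if_pos hi]
      exact hb i hi
  have hinjA : Set.InjOn (fun i : ℕ => (i : ZMod q)) (A : Set ℕ) := by
    intro i hi j hj h
    have hi' := Finset.mem_range.mp (hA (Finset.mem_coe.mp hi))
    have hj' := Finset.mem_range.mp (hA (Finset.mem_coe.mp hj))
    have h1 : ((i : ZMod q)).val = ((j : ZMod q)).val := congrArg ZMod.val h
    rwa [ZMod.val_cast_of_lt hi', ZMod.val_cast_of_lt hj'] at h1
  have hft : ∀ x : ZMod q, ft psi c x = ∑ i ∈ A, b i * (psi x) ^ i := by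
    intro x
    have h1 : ft psi c x = ∑ a ∈ sp c, c a * psi (a * x) := by
      unfold ft
      symm
      refine Finset.sum_subset (Finset.subset_univ _) fun a _ ha => ?_
      have : c a = 0 := by
        by_contra h
        exact ha (mem_sp.mpr h)
      rw [this, zero_mul]
    rw [h1, hsp, Finset.sum_image hinjA]
    refine Finset.sum_congr rfl fun i hi => ?_
    have h2 : ((i : ZMod q)).val = i := ZMod.val_cast_of_lt (Finset.mem_range.mp (hA hi))
    have h3 : c (i : ZMod q) = b i := by
      change (if ((i : ZMod q)).val ∈ A then b ((i : ZMod q)).val else 0) = b i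
      rw [h2, if_pos hi]
    rw [h3, ← nsmul_eq_mul, AddChar.map_nsmul_eq_pow]
  refine ⟨psi, c, hinj, ?_, ?_⟩
  · rw [hsp, Finset.card_image_of_injOn hinjA]
  · have h1 : {z : ZMod p | z ^ q = 1 ∧ ∑ i ∈ A, b i * z ^ i = 0} =
        (((univ.filter fun x : ZMod q => ft psi c x = 0).image psi : Finset (ZMod p)) :
          Set (ZMod p)) := by
      ext z
      rw [Set.mem_ofPred_eq, Finset.mem_coe, Finset.mem_image]
      constructor
      · rintro ⟨hz, hs⟩
        obtain ⟨i, hi, rfl⟩ := hg.eq_pow_of_pow_eq_one hz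
        have h2 : psi (i : ZMod q) = g ^ i := by
          rw [hpsi, AddChar.zmodChar_apply, ZMod.val_cast_of_lt hi]
        refine ⟨(i : ZMod q), Finset.mem_filter.mpr ⟨Finset.mem_univ _, ?_⟩, h2⟩
        rw [hft, h2]
        exact hs
      · rintro ⟨x, hx, rfl⟩
        refine ⟨?_, ?_⟩
        · rw [← AddChar.map_nsmul_eq_pow, nsmul_eq_mul, CharP.cast_eq_zero, zero_mul,
            AddChar.map_zero_eq_one]
        · rw [← hft]
          exact (Finset.mem_filter.mp hx).2
    rw [h1, Set.ncard_coe_finset, Finset.card_image_of_injective _ hinj]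
    have h2 := Finset.card_filter_add_card_filter_not (s := (univ : Finset (ZMod q)))
      (fun x => ft psi c x = 0)
    rw [Finset.card_univ, ZMod.card] at h2
    have h3 : nz psi c = univ.filter fun x : ZMod q => ¬ ft psi c x = 0 := by
      ext x
      rw [mem_nz, Finset.mem_filter]
      exact ⟨fun h => ⟨Finset.mem_univ _, h⟩, fun h => h.2⟩
    rw [h3]
    exact h2

/-- The universal bound. -/
theorem universal {p q : ℕ} (hp : p.Prime) (hq : q.Prime) (hqp : q ∣ p - 1)
    (A : Finset ℕ) (hA : A ⊆ range q) (hne : A.Nonempty) (b : ℕ → ZMod p)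
    (hb : ∀ i ∈ A, b i ≠ 0) (eta : ℝ) (he : 0 < eta) (he3 : 3 * eta < 1)
    (hr : (1 - eta) * q ≤
      ({z : ZMod p | z ^ q = 1 ∧ ∑ i ∈ A, b i * z ^ i = 0}.ncard : ℝ)) :
    Real.log q ≤ A.card * eta * (6 + Real.log (1 / eta)) := by
  have := Fact.mk hp
  have := Fact.mk hq
  obtain ⟨g, hg⟩ := exists_primitive (p := p) hqp
  obtain ⟨psi, c, hpsi, hc, htot⟩ := card_roots g hg A hA b hb
  have hc0 : c ≠ 0 := by
    intro h
    have h1 : sp c = ∅ := by
      rw [Finset.eq_empty_iff_forall_notMem]
      intro a ha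
      exact mem_sp.mp ha (by rw [h]; rfl)
    rw [h1, Finset.card_empty] at hc
    exact hne.card_pos.ne hc
  refine main psi hpsi A.card c hc0 hc eta he he3 ?_
  have h2 : (({z : ZMod p | z ^ q = 1 ∧ ∑ i ∈ A, b i * z ^ i = 0}.ncard : ℝ)) +
      (nz psi c).card = q := by exact_mod_cast htot
  linarith

/-- The closed form of the universal bound. -/
theorem closed_form {p q : ℕ} (hp : p.Prime) (hq : q.Prime) (hqp : q ∣ p - 1)
    (A : Finset ℕ) (hA : A ⊆ range q) (hne : A.Nonempty) (b : ℕ → ZMod p)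
    (hb : ∀ i ∈ A, b i ≠ 0) :
    ({z : ZMod p | z ^ q = 1 ∧ ∑ i ∈ A, b i * z ^ i = 0}.ncard : ℝ) ≤
      (1 - 1 / (16 * (1 + A.card / Real.log q) * Real.log (2 + A.card / Real.log q))) * q := by
  have hq2 : (2 : ℝ) ≤ q := by exact_mod_cast hq.two_le
  have hlq : 0 < Real.log q := Real.log_pos (by linarith)
  have hk : (0 : ℝ) < A.card := by exact_mod_cast hne.card_pos
  set x : ℝ := A.card / Real.log q with hx
  have hx0 : 0 < x := div_pos hk hlq
  set L : ℝ := Real.log (2 + x) with hL
  have hlog2 : (0.69 : ℝ) < Real.log 2 := by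
    have := Real.log_two_gt_d9
    linarith
  have hlog2' : Real.log 2 < (0.7 : ℝ) := by
    have := Real.log_two_lt_d9
    linarith
  have hL2 : Real.log 2 ≤ L := Real.log_le_log (by norm_num) (by linarith)
  have hLpos : 0 < L := by linarith
  by_contra hcon
  push Not at hcon
  set eta : ℝ := 1 / (16 * (1 + x) * L) with heta
  have hden : 0 < 16 * (1 + x) * L := by positivity
  have he : 0 < eta := by positivity
  have he3 : 3 * eta < 1 := by
    rw [heta, mul_one_div, div_lt_one hden]
    nlinarith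
  have h1 := universal hp hq hqp A hA hne b hb eta he he3 hcon.le
  -- the logarithm
  have h2 : Real.log (1 / eta) ≤ 4 * Real.log 2 + L + (L - 1) := by
    rw [heta, one_div_one_div, Real.log_mul (by positivity) hLpos.ne',
      Real.log_mul (by norm_num) (by positivity)]
    have e1 : Real.log 16 = 4 * Real.log 2 := by
      rw [show (16 : ℝ) = 2 ^ 4 by norm_num, Real.log_pow]
      norm_num
    have e2 : Real.log (1 + x) ≤ L := Real.log_le_log (by positivity) (by linarith)
    have e3 : Real.log L ≤ L - 1 := Real.log_le_sub_one_of_pos hLpos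
    linarith
  have h3 : 6 + Real.log (1 / eta) ≤ 5 + 4 * 0.7 + 2 * L := by linarith
  have h4 : (A.card : ℝ) = x * Real.log q := by
    rw [hx]
    field_simp
  have h5 : Real.log q ≤ Real.log q * (x * eta * (5 + 4 * 0.7 + 2 * L)) := by
    calc Real.log q ≤ A.card * eta * (6 + Real.log (1 / eta)) := h1
      _ ≤ A.card * eta * (5 + 4 * 0.7 + 2 * L) :=
          mul_le_mul_of_nonneg_left h3 (mul_nonneg hk.le he.le)
      _ = Real.log q * (x * eta * (5 + 4 * 0.7 + 2 * L)) := by
          rw [h4]
          ring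
  have h6 : 1 ≤ x * eta * (5 + 4 * 0.7 + 2 * L) := by
    by_contra h
    push Not at h
    have := mul_lt_mul_of_pos_left h hlq
    linarith
  have h7 : x * eta * (5 + 4 * 0.7 + 2 * L) * (16 * (1 + x) * L) =
      x * (5 + 4 * 0.7 + 2 * L) := by
    rw [heta]
    field_simp
  have h8 : 16 * (1 + x) * L ≤ x * (5 + 4 * 0.7 + 2 * L) := by
    rw [← h7]
    exact le_mul_of_one_le_left hden.le h6
  nlinarith [mul_pos hx0 hLpos]

/-- Few terms: `k ≤ C log q`. -/
theorem few_terms (C : ℝ) (hC : 0 ≤ C) {p q : ℕ} (hp : p.Prime) (hq : q.Prime)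
    (hqp : q ∣ p - 1) (A : Finset ℕ) (hA : A ⊆ range q) (hne : A.Nonempty)
    (hAC : (A.card : ℝ) ≤ C * Real.log q) (b : ℕ → ZMod p) (hb : ∀ i ∈ A, b i ≠ 0) :
    ({z : ZMod p | z ^ q = 1 ∧ ∑ i ∈ A, b i * z ^ i = 0}.ncard : ℝ) ≤
      (1 - 1 / (16 * (1 + C) * Real.log (2 + C))) * q := by
  have hq2 : (2 : ℝ) ≤ q := by exact_mod_cast hq.two_le
  have hlq : 0 < Real.log q := Real.log_pos (by linarith)
  have hx : (A.card : ℝ) / Real.log q ≤ C := by
    rw [div_le_iff₀ hlq]
    exact hAC
  have hx0 : 0 ≤ (A.card : ℝ) / Real.log q := div_nonneg (Nat.cast_nonneg _) hlq.le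
  refine (closed_form hp hq hqp A hA hne b hb).trans ?_
  refine mul_le_mul_of_nonneg_right ?_ (by linarith)
  have h1 : 0 < Real.log (2 + (A.card : ℝ) / Real.log q) := Real.log_pos (by linarith)
  have h2 : Real.log (2 + (A.card : ℝ) / Real.log q) ≤ Real.log (2 + C) :=
    Real.log_le_log (by linarith) (by linarith)
  have h3 : 1 / (16 * (1 + C) * Real.log (2 + C)) ≤
      1 / (16 * (1 + A.card / Real.log q) * Real.log (2 + A.card / Real.log q)) := by
    refine one_div_le_one_div_of_le (by positivity) ?_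
    refine mul_le_mul (by linarith) h2 h1.le (by positivity)
  linarith

end Pool.Agent.Helper20_US
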