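import Pool.Agent.Helper20_US.Count
import Pool.Agent.Helper20_US.Dir

/-!
# The universal bound
-/

set_option autoImplicit false

namespace Pool.Agent.Helper20_US

open Finset Module

variable {q : ℕ} [Fact q.Prime] {K : Type*} [Field K]

theorem log_three : 5 * Real.log 3 ≤ 6 := by
  have h1 : 5 * Real.log 3 = Real.log 243 := by
    rw [show (243 : ℝ) = 3 ^ 5 by norm_num, Real.log_pow]
    norm_num
  rw [h1, Real.log_le_iff_le_exp (by norm_num)]
  have h3 : Real.exp 6 = Real.exp 1 ^ 6 := by
    rw [← Real.exp_nat_mul]
    norm_num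
  rw [h3]
  have h4 : (2.7 : ℝ) < Real.exp 1 := by
    have := Real.exp_one_gt_d9
    linarith
  calc (243 : ℝ) ≤ 2.7 ^ 6 := by norm_num
    _ ≤ Real.exp 1 ^ 6 := pow_le_pow_left₀ (by norm_num) h4.le 6

/-- The universal bound for a function with `n` terms. -/
theorem main (psi : AddChar (ZMod q) K) (hpsi : Function.Injective psi) (n : ℕ) :
    ∀ c : ZMod q → K, c ≠ 0 → (sp c).card = n → ∀ eta : ℝ, 0 < eta → 3 * eta < 1 →
      ((nz psi c).card : ℝ) ≤ eta * q →
        Real.log q ≤ n * eta * (6 + Real.log (1 / eta)) := by
  classical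
  have hqp : 0 < (q : ℝ) := by exact_mod_cast (Fact.out : q.Prime).pos
  have h3pos : 0 < Real.log 3 := Real.log_pos (by norm_num)
  induction n using Nat.strong_induction_on with
  | _ n ih =>
    intro c hc hn eta he0 he3 hw
    have hn1 : 1 ≤ n := by
      rw [← hn]
      obtain ⟨a, ha⟩ := Function.ne_iff.mp hc
      exact Finset.card_pos.mpr ⟨a, mem_sp.mpr ha⟩
    have hn1' : (1 : ℝ) ≤ n := by exact_mod_cast hn1
    have hlog : Real.log 3 ≤ Real.log (1 / eta) := by
      refine Real.log_le_log (by norm_num) ?_
      rw [le_div_iff₀ he0]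
      exact he3.le
    by_cases h6 : 1 / 6 ≤ eta
    · -- few terms
      have h1 : q ≤ 3 ^ ((sp c).card - 1) := by
        by_contra hcon
        have h2 := base psi hpsi c hc (not_le.mp hcon)
        have h4 : (q : ℝ) ≤ 3 * (nz psi c).card := by exact_mod_cast h2
        nlinarith
      have h2 : Real.log q ≤ n * Real.log 3 := by
        have h4 : (q : ℝ) ≤ 3 ^ ((sp c).card - 1) := by exact_mod_cast h1
        calc Real.log q ≤ Real.log (3 ^ ((sp c).card - 1)) := Real.log_le_log hqp h4
          _ = (((sp c).card - 1 : ℕ) : ℝ) * Real.log 3 := Real.log_pow _ _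
          _ ≤ n * Real.log 3 := by
              refine mul_le_mul_of_nonneg_right ?_ h3pos.le
              rw [hn]
              exact_mod_cast Nat.sub_le n 1
      refine h2.trans ?_
      rw [mul_assoc]
      refine mul_le_mul_of_nonneg_left ?_ (Nat.cast_nonneg n)
      have h5 := log_three
      calc Real.log 3 ≤ 1 / 6 * (6 + Real.log 3) := by linarith
        _ ≤ eta * (6 + Real.log (1 / eta)) :=
            mul_le_mul h6 (by linarith) (by linarith) he0.le
    push Not at h6
    by_cases hH : Hal psi c
    · -- the direct bound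
      have h1 := rk_le psi hpsi c {0}
      rw [df_zero] at h1
      have h2 := rk_pos psi c hc {0} (Finset.singleton_nonempty 0)
      have h4 : (q : ℝ) ≤ (nz psi c).card * (sp c).card := by
        have : q ≤ (nz psi c).card * (sp c).card :=
          le_trans (Nat.le_mul_of_pos_right q h2) h1
        exact_mod_cast this
      have hb1 : 1 ≤ (n : ℝ) * eta := by
        have h5 : (q : ℝ) * 1 ≤ q * (n * eta) := by
          rw [hn] at h4
          calc (q : ℝ) * 1 ≤ (nz psi c).card * n := by linarith
            _ ≤ (eta * q) * n := mul_le_mul_of_nonneg_right hw (by positivity)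
            _ = q * (n * eta) := by ring
        exact le_of_mul_le_mul_left h5 hqp
      have hn6 : (6 : ℝ) < n := by nlinarith
      have hc2 : 2 ≤ (sp c).card := by
        rw [hn]
        have : (2 : ℝ) ≤ n := by linarith
        exact_mod_cast this
      have h5 := main_hal psi hpsi c hc2 hH (n * eta) hb1 (by
        rw [hn]
        calc (n : ℝ) * (nz psi c).card ≤ n * (eta * q) :=
              mul_le_mul_of_nonneg_left hw (by positivity)
          _ = n * eta * q := by ring) (by
        rw [hn]
        nlinarith)
      rw [hn] at h5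
      have h7 : (n : ℝ) / (n * eta) = 1 / eta := by
        have : (n : ℝ) ≠ 0 := by linarith
        field_simp
      rwa [h7] at h5
    · -- halving
      unfold Hal at hH
      push Not at hH
      obtain ⟨Z, hZ, P, hP, hne, hsp⟩ := hH
      have hsub : nz psi (c * P) ⊆ df (nz psi c) Z := by
        intro x hx
        by_contra hcon
        exact mem_nz.mp hx (ys_ft (mem_ys.mpr ⟨P, hP, rfl⟩) hcon)
      have h1 : (nz psi (c * P)).card ≤ 2 * (nz psi c).card :=
        (Finset.card_le_card hsub).trans hZ
      have h2 : ((nz psi (c * P)).card : ℝ) ≤ 2 * eta * q := by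
        have : ((nz psi (c * P)).card : ℝ) ≤ 2 * (nz psi c).card := by exact_mod_cast h1
        linarith
      rw [hn] at hsp
      have h4 := ih (sp (c * P)).card (by omega) (c * P) hne rfl (2 * eta) (by linarith)
        (by linarith) h2
      have h5 : 2 * ((sp (c * P)).card : ℝ) ≤ n := by exact_mod_cast hsp
      have h7 : Real.log (1 / (2 * eta)) ≤ Real.log (1 / eta) := by
        refine Real.log_le_log (by positivity) ?_
        exact one_div_le_one_div_of_le he0 (by linarith)
      have h8 : 0 ≤ 6 + Real.log (1 / eta) := by linarith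
      calc Real.log q ≤ (sp (c * P)).card * (2 * eta) * (6 + Real.log (1 / (2 * eta))) := h4
        _ ≤ (sp (c * P)).card * (2 * eta) * (6 + Real.log (1 / eta)) := by
            refine mul_le_mul_of_nonneg_left (by linarith) (by positivity)
        _ = (2 * (sp (c * P)).card) * eta * (6 + Real.log (1 / eta)) := by ring
        _ ≤ n * eta * (6 + Real.log (1 / eta)) := by
            refine mul_le_mul_of_nonneg_right (mul_le_mul_of_nonneg_right h5 he0.le) h8

end Pool.Agent.Helper20_US
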