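import Pool.Agent.Helper20_US.Basic

/-!
# The rank of a set of translations
-/

set_option autoImplicit false

namespace Pool.Agent.Helper20_US

open Finset Module
open scoped Pointwise

variable {q : ℕ} [Fact q.Prime] {K : Type*} [Field K]

/-- The span of the vectors `uv psi y`, `y` in `Y`. -/
def bs (psi : AddChar (ZMod q) K) (Y : Finset (ZMod q)) : Submodule K (ZMod q → K) :=
  Submodule.span K (uv psi '' (Y : Set (ZMod q)))

/-- The products of `c` with the elements of `bs psi Y`. -/
def ys (psi : AddChar (ZMod q) K) (c : ZMod q → K) (Y : Finset (ZMod q)) :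
    Submodule K (ZMod q → K) :=
  (bs psi Y).map (LinearMap.mulLeft K c)

/-- The rank. -/
noncomputable def rk (psi : AddChar (ZMod q) K) (c : ZMod q → K) (Y : Finset (ZMod q)) : ℕ :=
  finrank K (ys psi c Y)

theorem uv_mem {psi : AddChar (ZMod q) K} {Y : Finset (ZMod q)} {y : ZMod q} (hy : y ∈ Y) :
    uv psi y ∈ bs psi Y :=
  Submodule.subset_span ⟨y, hy, rfl⟩

theorem bs_mono {psi : AddChar (ZMod q) K} {Y Z : Finset (ZMod q)} (h : Y ⊆ Z) :
    bs psi Y ≤ bs psi Z :=
  Submodule.span_mono (Set.image_mono (by exact_mod_cast h))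

theorem mem_ys {psi : AddChar (ZMod q) K} {c : ZMod q → K} {Y : Finset (ZMod q)}
    {w : ZMod q → K} : w ∈ ys psi c Y ↔ ∃ P ∈ bs psi Y, c * P = w := by
  unfold ys
  rw [Submodule.mem_map]
  rfl

theorem ys_mono {psi : AddChar (ZMod q) K} {c : ZMod q → K} {Y Z : Finset (ZMod q)}
    (h : Y ⊆ Z) : ys psi c Y ≤ ys psi c Z :=
  Submodule.map_mono (bs_mono h)

/-- A linear form which vanishes on all `c * uv psi y` vanishes on `ys psi c Y`. -/
theorem ys_induction {psi : AddChar (ZMod q) K} {c : ZMod q → K} {Y : Finset (ZMod q)}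
    (l : (ZMod q → K) →ₗ[K] K) (h : ∀ y ∈ Y, l (c * uv psi y) = 0) :
    ∀ w ∈ ys psi c Y, l w = 0 := by
  intro w hw
  obtain ⟨P, hP, rfl⟩ := mem_ys.mp hw
  have h1 : bs psi Y ≤ LinearMap.ker (l.comp (LinearMap.mulLeft K c)) := by
    unfold bs
    rw [Submodule.span_le]
    rintro _ ⟨y, hy, rfl⟩
    exact h y (Finset.mem_coe.mp hy)
  exact h1 hP

theorem ys_supp {psi : AddChar (ZMod q) K} {c : ZMod q → K} {Y : Finset (ZMod q)}
    {w : ZMod q → K} (hw : w ∈ ys psi c Y) {a : ZMod q} (ha : a ∉ sp c) : w a = 0 := by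
  obtain ⟨P, _, rfl⟩ := mem_ys.mp hw
  have : c a = 0 := by
    by_contra h
    exact ha (mem_sp.mpr h)
  rw [Pi.mul_apply, this, zero_mul]

theorem ys_ft {psi : AddChar (ZMod q) K} {c : ZMod q → K} {Y : Finset (ZMod q)}
    {w : ZMod q → K} (hw : w ∈ ys psi c Y) {x : ZMod q} (hx : x ∉ df (nz psi c) Y) :
    ft psi w x = 0 := by
  refine ys_induction (ftl psi x) (fun y hy => ?_) w hw
  rw [ftl_apply, ft_mul_uv]
  by_contra h
  refine hx (mem_df.mpr ⟨y, hy, mem_nz.mpr ?_⟩)
  rwa [add_comm]

/-- The number of the points which some translation in `Y` moves to a nonzero point. -/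
theorem rk_le (psi : AddChar (ZMod q) K) (hpsi : Function.Injective psi) (c : ZMod q → K)
    (Y : Finset (ZMod q)) : q * rk psi c Y ≤ (df (nz psi c) Y).card * (sp c).card := by
  classical
  have h := finrank_le psi hpsi (sp c) (df (nz psi c) Y)ᶜ (ys psi c Y)
    (fun w hw a ha => ys_supp hw ha) (fun w hw x hx => ys_ft hw (Finset.mem_compl.mp hx))
  have h1 := Finset.card_add_card_compl (df (nz psi c) Y)
  rw [ZMod.card] at h1
  unfold rk
  have h2 : q * (sp c).card = (df (nz psi c) Y).card * (sp c).card +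
      ((df (nz psi c) Y)ᶜ).card * (sp c).card := by
    rw [← add_mul, h1]
  omega

/-- Every space of vectors has an information set. -/
theorem info_set (n : ℕ) : ∀ (U : Submodule K (ZMod q → K)), finrank K U = n →
    ∃ T : Finset (ZMod q), T.card ≤ n ∧ ∀ w ∈ U, (∀ a ∈ T, w a = 0) → w = 0 := by
  classical
  induction n using Nat.strong_induction_on with
  | _ n ih =>
    intro U hU
    by_cases h0 : U = ⊥
    · refine ⟨∅, by simp, fun w hw _ => ?_⟩
      rw [h0] at hw
      exact (Submodule.mem_bot K).mp hw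
    · obtain ⟨w0, hw0, hne⟩ := Submodule.exists_mem_ne_zero_of_ne_bot h0
      obtain ⟨a, ha⟩ := Function.ne_iff.mp hne
      let V : Submodule K (ZMod q → K) := U ⊓ LinearMap.ker (LinearMap.proj (R := K) a)
      have hV : V < U := by
        refine lt_of_le_of_ne inf_le_left fun h => ?_
        have : w0 ∈ V := by rw [h]; exact hw0
        exact ha (by simpa using (Submodule.mem_inf.mp this).2)
      have hlt : finrank K V < finrank K U := Submodule.finrank_lt_finrank_of_lt hV
      obtain ⟨T, hT, hT2⟩ := ih (finrank K V) (by omega) V rfl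
      refine ⟨insert a T, ?_, fun w hw h => ?_⟩
      · have := Finset.card_insert_le a T
        omega
      · refine hT2 w ?_ fun b hb => h b (Finset.mem_insert_of_mem hb)
        exact Submodule.mem_inf.mpr ⟨hw, by
          rw [LinearMap.mem_ker]
          exact h a (Finset.mem_insert_self a T)⟩

/-- A space of larger dimension contains a nonzero vector which vanishes on `T`. -/
theorem exists_vanish (U : Submodule K (ZMod q → K)) (T : Finset (ZMod q))
    (h : T.card < finrank K U) : ∃ w ∈ U, w ≠ 0 ∧ ∀ a ∈ T, w a = 0 := by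
  classical
  by_contra hcon
  push Not at hcon
  let L : U →ₗ[K] (T → K) :=
    { toFun := fun w a => w.1 a.1
      map_add' := fun _ _ => rfl
      map_smul' := fun _ _ => rfl }
  have hL : Function.Injective L := by
    rw [injective_iff_map_eq_zero]
    intro w h
    by_contra hne
    have hne' : w.1 ≠ 0 := fun h0 => hne (Subtype.ext h0)
    obtain ⟨a, ha, ha'⟩ := hcon w.1 w.2 hne'
    exact ha' (congrFun h ⟨a, ha⟩)
  have h1 := LinearMap.finrank_le_finrank_of_injective hL
  rw [finrank_fintype_fun_eq_card, Fintype.card_coe] at h1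
  omega

theorem uv_zero (psi : AddChar (ZMod q) K) : uv psi 0 = 1 := by
  funext a
  simp [uv]

theorem uv_add (psi : AddChar (ZMod q) K) (y z : ZMod q) :
    uv psi (y + z) = uv psi y * uv psi z := by
  funext a
  simp only [uv, Pi.mul_apply, mul_add, AddChar.map_add_eq_mul]

open Classical in
theorem bs_mul {psi : AddChar (ZMod q) K} {Y Z : Finset (ZMod q)} {P Q : ZMod q → K}
    (hP : P ∈ bs psi Y) (hQ : Q ∈ bs psi Z) : P * Q ∈ bs psi (Y + Z) := by
  unfold bs at *
  have h := Submodule.mul_mem_mul hP hQ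
  rw [Submodule.span_mul_span] at h
  refine Submodule.span_mono ?_ h
  rintro _ ⟨_, ⟨y, hy, rfl⟩, _, ⟨z, hz, rfl⟩, rfl⟩
  refine ⟨y + z, ?_, uv_add psi y z⟩
  exact Finset.mem_coe.mpr (Finset.add_mem_add (Finset.mem_coe.mp hy) (Finset.mem_coe.mp hz))

open Classical in
/-- The `i`-fold sum of `Y`. -/
noncomputable def ns (Y : Finset (ZMod q)) : ℕ → Finset (ZMod q)
  | 0 => {0}
  | i + 1 => ns Y i + Y

/-- The halving property: no product `c * P`, `P` in `bs psi Z`, has at most half of the terms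
of `c`, as long as `Z` moves the nonzero points into a set of at most twice their number. -/
def Hal (psi : AddChar (ZMod q) K) (c : ZMod q → K) : Prop :=
  ∀ Z : Finset (ZMod q), (df (nz psi c) Z).card ≤ 2 * (nz psi c).card →
    ∀ P ∈ bs psi Z, c * P ≠ 0 → (sp c).card < 2 * (sp (c * P)).card

theorem sp_mul_subset (c P : ZMod q → K) : sp (c * P) ⊆ sp c := by
  intro a ha
  rw [mem_sp, Pi.mul_apply] at ha
  exact mem_sp.mpr (left_ne_zero_of_mul ha)

theorem df_ns_mono (W Y : Finset (ZMod q)) (h0 : (0 : ZMod q) ∈ Y) (i : ℕ) :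
    df W (ns Y i) ⊆ df W (ns Y (i + 1)) := by
  classical
  intro x hx
  obtain ⟨y, hy, hxy⟩ := mem_df.mp hx
  refine mem_df.mpr ⟨y, ?_, hxy⟩
  change y ∈ ns Y i + Y
  have := Finset.add_mem_add hy h0
  rwa [add_zero] at this

theorem df_ns_mono' (W Y : Finset (ZMod q)) (h0 : (0 : ZMod q) ∈ Y) {i j : ℕ} (h : i ≤ j) :
    df W (ns Y i) ⊆ df W (ns Y j) := by
  induction j, h using Nat.le_induction with
  | base => exact Finset.Subset.refl _
  | succ j _ ih => exact ih.trans (df_ns_mono W Y h0 j)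

theorem df_ns_one (W Y : Finset (ZMod q)) : df W (ns Y 1) = df W Y := by
  classical
  have : ns Y 1 = Y := by
    change ({0} : Finset (ZMod q)) + Y = Y
    rw [Finset.singleton_zero, zero_add]
  rw [this]

/-- There are products vanishing on every small set. -/
theorem exists_prod (psi : AddChar (ZMod q) K) (c : ZMod q → K) (hc : c ≠ 0)
    (hH : Hal psi c) (Y : Finset (ZMod q)) (h0 : (0 : ZMod q) ∈ Y) (i : ℕ)
    (hi : (df (nz psi c) (ns Y i)).card ≤ 2 * (nz psi c).card) :
    ∀ T : Finset (ZMod q), T.card ≤ i * (rk psi c Y - 1) →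
      ∃ P ∈ bs psi (ns Y i), c * P ≠ 0 ∧ ∀ a ∈ T, (c * P) a = 0 := by
  classical
  induction i with
  | zero =>
    intro T hT
    have hT0 : T = ∅ := by
      rw [Nat.zero_mul, Nat.le_zero, Finset.card_eq_zero] at hT
      exact hT
    refine ⟨1, ?_, by rwa [mul_one], by rw [hT0]; simp⟩
    rw [← uv_zero psi]
    exact uv_mem (by simp [ns])
  | succ i ih =>
    intro T hT
    have hi' : (df (nz psi c) (ns Y i)).card ≤ 2 * (nz psi c).card :=
      (Finset.card_le_card (df_ns_mono _ Y h0 i)).trans hi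
    have hi1 : (df (nz psi c) Y).card ≤ 2 * (nz psi c).card := by
      rw [← df_ns_one]
      exact (Finset.card_le_card (df_ns_mono' _ Y h0 (by omega))).trans hi
    -- split `T`
    obtain ⟨T1, hT1, hT1c⟩ : ∃ T1 ⊆ T, T1.card = min T.card (i * (rk psi c Y - 1)) :=
      Finset.exists_subset_card_eq (min_le_left _ _)
    have hT2c : (T \ T1).card ≤ rk psi c Y - 1 := by
      rw [Finset.card_sdiff_of_subset hT1, hT1c]
      rw [Nat.succ_mul] at hT
      omega
    obtain ⟨P1, hP1, hP1n, hP1T⟩ := ih hi' T1 (by rw [hT1c]; exact min_le_right _ _)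
    -- the rank is positive
    have hpos : 0 < rk psi c Y := by
      unfold rk
      rw [finrank_pos_iff_exists_ne_zero]
      refine ⟨⟨c, mem_ys.mpr ⟨1, ?_, mul_one c⟩⟩, fun h => hc (congrArg Subtype.val h)⟩
      rw [← uv_zero psi]
      exact uv_mem h0
    obtain ⟨w, hw, hwn, hwT⟩ := exists_vanish (ys psi c Y) (T \ T1) (by
      change (T \ T1).card < rk psi c Y
      omega)
    obtain ⟨b, hb, rfl⟩ := mem_ys.mp hw
    have c1 := hH (ns Y i) hi' P1 hP1 hP1n
    have c2 := hH Y hi1 b hb hwn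
    -- a common point
    have hcommon : (sp (c * P1) ∩ sp (c * b)).Nonempty := by
      rw [← Finset.card_pos]
      have h1 := Finset.card_union_add_card_inter (sp (c * P1)) (sp (c * b))
      have h2 : (sp (c * P1) ∪ sp (c * b)).card ≤ (sp c).card :=
        Finset.card_le_card (Finset.union_subset (sp_mul_subset c P1) (sp_mul_subset c b))
      omega
    obtain ⟨a, ha⟩ := hcommon
    obtain ⟨ha1, ha2⟩ := Finset.mem_inter.mp ha
    rw [mem_sp, Pi.mul_apply] at ha1 ha2
    refine ⟨P1 * b, bs_mul hP1 hb, ?_, ?_⟩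
    · intro h
      have := congrFun h a
      rw [Pi.mul_apply, Pi.mul_apply, Pi.zero_apply] at this
      exact mul_ne_zero ha1 (right_ne_zero_of_mul ha2) (by rw [mul_assoc]; exact this)
    · intro t ht
      rw [Pi.mul_apply, Pi.mul_apply]
      by_cases ht1 : t ∈ T1
      · have := hP1T t ht1
        rw [Pi.mul_apply] at this
        rw [← mul_assoc, this, zero_mul]
      · have := hwT t (Finset.mem_sdiff.mpr ⟨ht, ht1⟩)
        rw [Pi.mul_apply] at this
        rw [mul_left_comm, this, mul_zero]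

/-- The growth of the rank. -/
theorem growth (psi : AddChar (ZMod q) K) (c : ZMod q → K) (hc : c ≠ 0)
    (hH : Hal psi c) (Y : Finset (ZMod q)) (h0 : (0 : ZMod q) ∈ Y) (i : ℕ)
    (hi : (df (nz psi c) (ns Y i)).card ≤ 2 * (nz psi c).card) :
    i * (rk psi c Y - 1) + 1 ≤ rk psi c (ns Y i) := by
  by_contra hcon
  obtain ⟨T, hT, hT2⟩ := info_set (rk psi c (ns Y i)) (ys psi c (ns Y i)) rfl
  obtain ⟨P, hP, hPn, hPT⟩ := exists_prod psi c hc hH Y h0 i hi T (by omega)
  exact hPn (hT2 _ (mem_ys.mpr ⟨P, hP, rfl⟩) hPT)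

end Pool.Agent.Helper20_US
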