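import Pool.Agent.Helper20_US.Rank

/-!
# The greedy step
-/

set_option autoImplicit false

namespace Pool.Agent.Helper20_US

open Finset Module
open scoped Pointwise

variable {q : ℕ} [Fact q.Prime] {K : Type*} [Field K]

theorem df_add (W Z Y : Finset (ZMod q)) (x : ZMod q) :
    open Classical in (x ∈ df W (Z + Y)) ↔ ∃ y ∈ Y, x + y ∈ df W Z := by
  classical
  constructor
  · intro h
    obtain ⟨s, hs, hx⟩ := mem_df.mp h
    obtain ⟨z, hz, y, hy, rfl⟩ := Finset.mem_add.mp hs
    refine ⟨y, hy, mem_df.mpr ⟨z, hz, ?_⟩⟩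
    have : x + y + z = x + (z + y) := by ring
    rwa [this]
  · rintro ⟨y, hy, h⟩
    obtain ⟨z, hz, hx⟩ := mem_df.mp h
    refine mem_df.mpr ⟨z + y, Finset.add_mem_add hz hy, ?_⟩
    have : x + (z + y) = x + y + z := by ring
    rwa [this]

/-- The greedy step. -/
theorem greedy (psi : AddChar (ZMod q) K) (c : ZMod q → K) (Z Y : Finset (ZMod q))
    (hne : open Classical in (df (nz psi c) (Z + Y)).Nonempty) :
    ∃ Y1 ⊆ Y, rk psi c Y1 < rk psi c Y ∧
      (open Classical in (df (nz psi c) (Z + Y)).card) * (Y.card - Y1.card) ≤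
        (df (nz psi c) Z).card * Y.card := by
  classical
  let S := df (nz psi c) Z
  let S' := df (nz psi c) (Z + Y)
  let N : ZMod q → ℕ := fun x => (Y.filter fun y => x + y ∈ S).card
  have hsum : ∑ x ∈ S', N x ≤ S.card * Y.card := by
    calc ∑ x ∈ S', N x ≤ ∑ x : ZMod q, N x :=
          Finset.sum_le_sum_of_subset (Finset.subset_univ S')
      _ = ∑ x : ZMod q, ∑ y ∈ Y, (if x + y ∈ S then 1 else 0) := by
          refine Finset.sum_congr rfl fun x _ => ?_
          exact Finset.card_filter _ _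
      _ = ∑ y ∈ Y, ∑ x : ZMod q, (if x + y ∈ S then 1 else 0) := Finset.sum_comm
      _ = ∑ _y ∈ Y, S.card := by
          refine Finset.sum_congr rfl fun y _ => ?_
          rw [← Finset.card_filter]
          have : (univ.filter fun x : ZMod q => x + y ∈ S) = S.image fun s => s - y := by
            ext x
            simp only [Finset.mem_filter, Finset.mem_univ, true_and, Finset.mem_image]
            constructor
            · intro h
              exact ⟨x + y, h, by ring⟩
            · rintro ⟨s, hs, rfl⟩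
              have : s - y + y = s := by ring
              rwa [this]
          rw [this, Finset.card_image_of_injective _ (fun a b h => by
            have h' : a - y = b - y := h
            exact sub_left_injective h')]
      _ = S.card * Y.card := by rw [Finset.sum_const, smul_eq_mul, mul_comm]
  obtain ⟨x, hx, hx2⟩ : ∃ x ∈ S', S'.card * N x ≤ S.card * Y.card := by
    refine Finset.exists_le_of_sum_le (s := S') (f := fun x => S'.card * N x)
      (g := fun _ => S.card * Y.card) hne ?_
    rw [← Finset.mul_sum, Finset.sum_const, smul_eq_mul]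
    exact Nat.mul_le_mul_left _ hsum
  refine ⟨Y.filter fun y => ¬ x + y ∈ S, Finset.filter_subset _ _, ?_, ?_⟩
  · -- the rank drops
    obtain ⟨y0, hy0, h0⟩ := (df_add (nz psi c) Z Y x).mp hx
    obtain ⟨z, hz, hxz⟩ := mem_df.mp h0
    refine Submodule.finrank_lt_finrank_of_lt (lt_of_le_of_ne
      (ys_mono (Finset.filter_subset _ _)) fun h => ?_)
    have hl : ∀ w ∈ ys psi c (Y.filter fun y => ¬ x + y ∈ S), ftl psi (x + z) w = 0 := by
      refine ys_induction (ftl psi (x + z)) fun y hy => ?_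
      rw [ftl_apply, ft_mul_uv]
      by_contra hcon
      refine (Finset.mem_filter.mp hy).2 (mem_df.mpr ⟨z, hz, mem_nz.mpr ?_⟩)
      have : x + y + z = y + (x + z) := by ring
      rwa [this]
    have h1 : c * uv psi y0 ∈ ys psi c (Y.filter fun y => ¬ x + y ∈ S) := by
      rw [h]
      exact mem_ys.mpr ⟨_, uv_mem hy0, rfl⟩
    have h2 := hl _ h1
    rw [ftl_apply, ft_mul_uv] at h2
    have h3 := mem_nz.mp hxz
    have : x + y0 + z = y0 + (x + z) := by ring
    rw [this] at h3
    exact h3 h2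
  · have h1 := Finset.card_filter_add_card_filter_not (s := Y) (fun y => x + y ∈ S)
    have h2 : Y.card - (Y.filter fun y => ¬ x + y ∈ S).card = N x := by
      change _ = (Y.filter fun y => x + y ∈ S).card
      omega
    rw [h2]
    exact hx2

theorem rk_pos (psi : AddChar (ZMod q) K) (c : ZMod q → K) (hc : c ≠ 0)
    (Y : Finset (ZMod q)) (hY : Y.Nonempty) : 0 < rk psi c Y := by
  obtain ⟨y, hy⟩ := hY
  unfold rk
  rw [finrank_pos_iff_exists_ne_zero]
  obtain ⟨a, ha⟩ := Function.ne_iff.mp hc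
  refine ⟨⟨c * uv psi y, mem_ys.mpr ⟨_, uv_mem hy, rfl⟩⟩, fun h => ?_⟩
  have h1 := congrFun (congrArg Subtype.val h) a
  change c a * psi (a * y) = 0 at h1
  have h2 : psi (a * y) ≠ 0 := by
    intro h3
    have h4 : psi (a * y) * psi (-(a * y)) = 1 := by
      rw [← AddChar.map_add_eq_mul, add_neg_cancel, AddChar.map_zero_eq_one]
    rw [h3, zero_mul] at h4
    exact zero_ne_one h4
  exact mul_ne_zero ha h2 h1

theorem nz_nonempty (psi : AddChar (ZMod q) K) (hpsi : Function.Injective psi) (c : ZMod q → K)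
    (hc : c ≠ 0) : (nz psi c).Nonempty := by
  classical
  have h1 := rk_le psi hpsi c {0}
  have h2 := rk_pos psi c hc {0} (Finset.singleton_nonempty 0)
  have hq : 0 < q := (Fact.out : q.Prime).pos
  have h3 : 0 < (df (nz psi c) {0}).card := by
    by_contra h
    have h4 : (df (nz psi c) {0}).card = 0 := by omega
    rw [h4, zero_mul] at h1
    have := Nat.mul_pos hq h2
    omega
  obtain ⟨x, hx⟩ := Finset.card_pos.mp h3
  obtain ⟨y, _, hy⟩ := mem_df.mp hx
  exact ⟨_, hy⟩

theorem df_nonempty {W Y : Finset (ZMod q)} (hW : W.Nonempty) (hY : Y.Nonempty) :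
    (df W Y).Nonempty := by
  obtain ⟨w, hw⟩ := hW
  obtain ⟨y, hy⟩ := hY
  refine ⟨w - y, mem_df.mpr ⟨y, hy, ?_⟩⟩
  rwa [sub_add_cancel]

theorem df_zero (W : Finset (ZMod q)) : df W {0} = W := by
  ext x
  rw [mem_df]
  simp

theorem rk_le_card (psi : AddChar (ZMod q) K) (hpsi : Function.Injective psi) (c : ZMod q → K)
    (Y : Finset (ZMod q)) : rk psi c Y ≤ (sp c).card := by
  have h1 := rk_le psi hpsi c Y
  have h2 := Finset.card_le_univ (df (nz psi c) Y)
  rw [ZMod.card] at h2
  have hq : 0 < q := (Fact.out : q.Prime).pos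
  exact Nat.le_of_mul_le_mul_left (h1.trans (Nat.mul_le_mul_right _ h2)) hq

/-- The first case of the step: large rank. -/
theorem step_large (psi : AddChar (ZMod q) K) (hpsi : Function.Injective psi) (c : ZMod q → K)
    (hc : c ≠ 0) (b : ℝ) (hb : ((sp c).card : ℝ) * (nz psi c).card ≤ b * q)
    (Y : Finset (ZMod q)) (hY : Y.Nonempty) :
    ∃ Y1 ⊆ Y, rk psi c Y1 < rk psi c Y ∧
      ((rk psi c Y : ℝ) - b) * Y.card ≤ rk psi c Y * Y1.card := by
  classical
  have hq : 0 < (q : ℝ) := by exact_mod_cast (Fact.out : q.Prime).pos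
  have h0 : ({0} : Finset (ZMod q)) + Y = Y := by rw [Finset.singleton_zero, zero_add]
  obtain ⟨Y1, hsub, hrk, hcard⟩ := greedy psi c {0} Y
    (by rw [h0]; exact df_nonempty (nz_nonempty psi hpsi c hc) hY)
  rw [h0, df_zero] at hcard
  refine ⟨Y1, hsub, hrk, ?_⟩
  have h1 := rk_le psi hpsi c Y
  have h2 : Y1.card ≤ Y.card := Finset.card_le_card hsub
  have h3 : ((df (nz psi c) Y).card : ℝ) * ((Y.card : ℝ) - Y1.card) ≤
      (nz psi c).card * Y.card := by
    have : (((df (nz psi c) Y).card * (Y.card - Y1.card) : ℕ) : ℝ) ≤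
        (((nz psi c).card * Y.card : ℕ) : ℝ) := by exact_mod_cast hcard
    rw [Nat.cast_mul, Nat.cast_mul, Nat.cast_sub h2] at this
    exact this
  have h4 : (q : ℝ) * rk psi c Y ≤ (df (nz psi c) Y).card * (sp c).card := by
    exact_mod_cast h1
  have hd : (0 : ℝ) ≤ (Y.card : ℝ) - Y1.card := by
    have : (Y1.card : ℝ) ≤ Y.card := by exact_mod_cast h2
    linarith
  have h5 : (q : ℝ) * (rk psi c Y * ((Y.card : ℝ) - Y1.card)) ≤ q * (b * Y.card) := by
    calc (q : ℝ) * (rk psi c Y * ((Y.card : ℝ) - Y1.card))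
        = (q * rk psi c Y) * ((Y.card : ℝ) - Y1.card) := by ring
      _ ≤ ((df (nz psi c) Y).card * (sp c).card) * ((Y.card : ℝ) - Y1.card) :=
          mul_le_mul_of_nonneg_right h4 hd
      _ = (sp c).card * ((df (nz psi c) Y).card * ((Y.card : ℝ) - Y1.card)) := by ring
      _ ≤ (sp c).card * ((nz psi c).card * Y.card) :=
          mul_le_mul_of_nonneg_left h3 (Nat.cast_nonneg _)
      _ = ((sp c).card * (nz psi c).card) * Y.card := by ring
      _ ≤ (b * q) * Y.card := mul_le_mul_of_nonneg_right hb (Nat.cast_nonneg _)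
      _ = q * (b * Y.card) := by ring
  have h6 := le_of_mul_le_mul_left h5 hq
  nlinarith

/-- The second case of the step: small rank. -/
theorem step_small (psi : AddChar (ZMod q) K) (hpsi : Function.Injective psi) (c : ZMod q → K)
    (hc : c ≠ 0) (hH : Hal psi c) (b : ℝ)
    (hb : ((sp c).card : ℝ) * (nz psi c).card ≤ b * q)
    (Y : Finset (ZMod q)) (h0 : (0 : ZMod q) ∈ Y) (hr2 : 2 ≤ rk psi c Y)
    (hrb : (rk psi c Y : ℝ) ≤ 2 * b) :
    ∃ Y1 ⊆ Y, rk psi c Y1 < rk psi c Y ∧
      ((rk psi c Y : ℝ) - 1) * Y.card ≤ 8 * b * Y1.card := by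
  classical
  have hq : 0 < (q : ℝ) := by exact_mod_cast (Fact.out : q.Prime).pos
  set r := rk psi c Y with hr
  set W := nz psi c with hW
  have hWne : W.Nonempty := nz_nonempty psi hpsi c hc
  have hWpos : (0 : ℝ) < W.card := by exact_mod_cast Finset.card_pos.mpr hWne
  -- the first large set
  have hex : ∃ i, 2 * W.card < (df W (ns Y i)).card := by
    by_contra hcon
    push Not at hcon
    have h1 := growth psi c hc hH Y h0 (sp c).card (hcon _)
    have h2 := rk_le_card psi hpsi c (ns Y (sp c).card)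
    have h3 : (sp c).card * 1 ≤ (sp c).card * (rk psi c Y - 1) :=
      Nat.mul_le_mul_left _ (by omega)
    omega
  have hJ := Nat.find_spec hex
  have hmin := fun i (hi : i < Nat.find hex) => Nat.find_min hex hi
  have hJ0 : Nat.find hex ≠ 0 := by
    intro h
    rw [h] at hJ
    change 2 * W.card < (df W {0}).card at hJ
    rw [df_zero] at hJ
    omega
  obtain ⟨i0, hi0⟩ := Nat.exists_eq_succ_of_ne_zero hJ0
  rw [hi0] at hJ hmin
  -- the size of `i0`
  have hg := growth psi c hc hH Y h0 i0 (by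
    have := hmin i0 (Nat.lt_succ_self _)
    exact not_lt.mp this)
  have hg2 : ((i0 : ℝ) * (r - 1) + 1) ≤ 2 * b := by
    have h1 := rk_le psi hpsi c (ns Y i0)
    have h2 : (df W (ns Y i0)).card ≤ 2 * W.card := not_lt.mp (hmin i0 (Nat.lt_succ_self _))
    have h3 : (q : ℝ) * rk psi c (ns Y i0) ≤ (2 * W.card) * (sp c).card := by
      have : q * rk psi c (ns Y i0) ≤ (2 * W.card) * (sp c).card :=
        h1.trans (Nat.mul_le_mul_right _ h2)
      exact_mod_cast this
    have h4 : ((i0 : ℝ) * (r - 1) + 1) ≤ rk psi c (ns Y i0) := by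
      have h5 : ((i0 * (r - 1) + 1 : ℕ) : ℝ) ≤ (rk psi c (ns Y i0) : ℝ) := by
        exact_mod_cast hg
      rw [Nat.cast_add, Nat.cast_mul, Nat.cast_sub (by omega)] at h5
      simpa using h5
    have h6 : (q : ℝ) * ((i0 : ℝ) * (r - 1) + 1) ≤ q * (2 * b) := by
      calc (q : ℝ) * ((i0 : ℝ) * (r - 1) + 1) ≤ q * rk psi c (ns Y i0) :=
            mul_le_mul_of_nonneg_left h4 hq.le
        _ ≤ (2 * W.card) * (sp c).card := h3
        _ = 2 * ((sp c).card * W.card) := by ring
        _ ≤ 2 * (b * q) := by linarith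
        _ = q * (2 * b) := by ring
    exact le_of_mul_le_mul_left h6 hq
  have hr1 : (2 : ℝ) ≤ r := by exact_mod_cast hr2
  -- a large ratio
  have hratio : ∃ i, i < i0 + 1 ∧ (2 * ((i0 : ℝ) + 1)) * (df W (ns Y i)).card ≤
      (2 * ((i0 : ℝ) + 1) - 1) * (df W (ns Y (i + 1))).card := by
    by_contra hcon
    push Not at hcon
    set th : ℝ := 1 / (2 * ((i0 : ℝ) + 1)) with hth
    have hpos : (0 : ℝ) < 2 * ((i0 : ℝ) + 1) := by positivity
    have hth1 : th ≤ 1 / 2 := by
      rw [hth, div_le_div_iff₀ hpos (by norm_num)]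
      have : (0 : ℝ) ≤ i0 := Nat.cast_nonneg _
      linarith
    have hth0 : 0 < th := by positivity
    have hind : ∀ i, i ≤ i0 + 1 → (1 - th) ^ i * (df W (ns Y i)).card ≤ W.card := by
      intro i
      induction i with
      | zero =>
        intro _
        change (1 - th) ^ 0 * ((df W {0}).card : ℝ) ≤ W.card
        rw [df_zero, pow_zero, one_mul]
      | succ i ih =>
        intro hi
        have h1 := hcon i (by omega)
        have h2 : (1 - th) * (df W (ns Y (i + 1))).card ≤ (df W (ns Y i)).card := by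
          have h3 : (2 * ((i0 : ℝ) + 1) - 1) = (2 * ((i0 : ℝ) + 1)) * (1 - th) := by
            rw [hth]
            field_simp
          rw [h3, mul_assoc] at h1
          exact (lt_of_mul_lt_mul_left h1 hpos.le).le
        calc (1 - th) ^ (i + 1) * ((df W (ns Y (i + 1))).card : ℝ)
            = (1 - th) ^ i * ((1 - th) * (df W (ns Y (i + 1))).card) := by ring
          _ ≤ (1 - th) ^ i * (df W (ns Y i)).card :=
              mul_le_mul_of_nonneg_left h2 (pow_nonneg (by linarith) _)
          _ ≤ W.card := ih (by omega)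
    have h1 := hind (i0 + 1) le_rfl
    have h2 : (1 : ℝ) / 2 ≤ (1 - th) ^ (i0 + 1) := by
      have h3 := one_add_mul_le_pow (a := -th) (by linarith) (i0 + 1)
      have h4 : (1 : ℝ) + ((i0 + 1 : ℕ) : ℝ) * -th = 1 / 2 := by
        rw [hth]
        push_cast
        field_simp
        ring
      rw [h4] at h3
      have h5 : (1 : ℝ) + -th = 1 - th := by ring
      rwa [h5] at h3
    have h3 : (2 : ℝ) * W.card < (df W (ns Y (i0 + 1))).card := by
      exact_mod_cast hJ
    have h4 : (1 : ℝ) / 2 * (df W (ns Y (i0 + 1))).card ≤ W.card :=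
      (mul_le_mul_of_nonneg_right h2 (Nat.cast_nonneg _)).trans h1
    linarith
  obtain ⟨i, _, hi⟩ := hratio
  obtain ⟨Y1, hsub, hrk, hcard⟩ := greedy psi c (ns Y i) Y
    (df_nonempty hWne (by
      have h1 : (0 : ZMod q) ∈ ns Y (i + 1) := by
        have : ∀ j, (0 : ZMod q) ∈ ns Y j := by
          intro j
          induction j with
          | zero => simp [ns]
          | succ j ih =>
            have := Finset.add_mem_add ih h0
            rw [add_zero] at this
            exact this
        exact this _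
      exact ⟨0, h1⟩))
  refine ⟨Y1, hsub, hrk, ?_⟩
  have hcard2 : ((df W (ns Y (i + 1))).card : ℝ) * ((Y.card : ℝ) - Y1.card) ≤
      (df W (ns Y i)).card * Y.card := by
    have h2 : Y1.card ≤ Y.card := Finset.card_le_card hsub
    have : (((df W (ns Y (i + 1))).card * (Y.card - Y1.card) : ℕ) : ℝ) ≤
        (((df W (ns Y i)).card * Y.card : ℕ) : ℝ) := by exact_mod_cast hcard
    rw [Nat.cast_mul, Nat.cast_mul, Nat.cast_sub h2] at this
    exact this
  set s1 : ℝ := ((df W (ns Y (i + 1))).card : ℝ) with hs1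
  set s0 : ℝ := ((df W (ns Y i)).card : ℝ) with hs0
  have hs1pos : 0 < s1 := by
    rw [hs1]
    have : 0 < (df W (ns Y (i + 1))).card := by
      rw [Finset.card_pos]
      refine df_nonempty hWne ⟨0, ?_⟩
      have : ∀ j, (0 : ZMod q) ∈ ns Y j := by
        intro j
        induction j with
        | zero => simp [ns]
        | succ j ih =>
          have := Finset.add_mem_add ih h0
          rw [add_zero] at this
          exact this
      exact this _
    exact_mod_cast this
  have hYc : (0 : ℝ) ≤ Y.card := Nat.cast_nonneg _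
  have hY1c : (0 : ℝ) ≤ Y1.card := Nat.cast_nonneg _
  have hi0c : (0 : ℝ) ≤ i0 := Nat.cast_nonneg _
  -- `|Y| ≤ 2 J |Y1|`
  have h7 : (Y.card : ℝ) ≤ (2 * ((i0 : ℝ) + 1)) * Y1.card := by
    have e1 : (2 * ((i0 : ℝ) + 1)) * (s1 * ((Y.card : ℝ) - Y1.card)) ≤
        (2 * ((i0 : ℝ) + 1) - 1) * s1 * Y.card := by
      calc (2 * ((i0 : ℝ) + 1)) * (s1 * ((Y.card : ℝ) - Y1.card))
          ≤ (2 * ((i0 : ℝ) + 1)) * (s0 * Y.card) :=
            mul_le_mul_of_nonneg_left hcard2 (by positivity)
        _ = ((2 * ((i0 : ℝ) + 1)) * s0) * Y.card := by ring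
        _ ≤ ((2 * ((i0 : ℝ) + 1) - 1) * s1) * Y.card := mul_le_mul_of_nonneg_right hi hYc
    have e2 : s1 * Y.card ≤ s1 * ((2 * ((i0 : ℝ) + 1)) * Y1.card) := by linarith
    exact le_of_mul_le_mul_left e2 hs1pos
  -- conclusion
  have h8 : ((r : ℝ) - 1) * (2 * ((i0 : ℝ) + 1)) ≤ 8 * b := by
    nlinarith
  calc ((r : ℝ) - 1) * Y.card ≤ ((r : ℝ) - 1) * ((2 * ((i0 : ℝ) + 1)) * Y1.card) :=
        mul_le_mul_of_nonneg_left h7 (by linarith)
    _ = (((r : ℝ) - 1) * (2 * ((i0 : ℝ) + 1))) * Y1.card := by ring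
    _ ≤ 8 * b * Y1.card := mul_le_mul_of_nonneg_right h8 hY1c

end Pool.Agent.Helper20_US
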